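import Mathlib
import Pool.Agent.Q215.Mo.Fin

set_option autoImplicit false

/-!
# A monotone graph property whose edge-query game is not determined
-/

namespace Pool.Agent.Results.MP_3d6d95_lc.Undetermined

open Pool.Agent.Q215.Elus

/-- the edges: unordered pairs of distinct natural numbers -/
abbrev Edge : Type := {e : Sym2 ℕ // ¬ e.IsDiag}

/-- the set of edges of a graph on `ℕ` -/
def edges (G : SimpleGraph ℕ) : Set Edge := {e | e.1 ∈ G.edgeSet}

/-- the position after the first `n` turns of a run; a run lists the edges chosen by Seeker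
together with their colours, `true` for green and `false` for red -/
def position (r : ℕ → Edge × Bool) (n : ℕ) : List (Edge × Bool) := (List.range n).map r

/-- the run is legal: no edge is chosen twice -/
def Legal (r : ℕ → Edge × Bool) : Prop := ∀ m n, m < n → (r n).1 ≠ (r m).1

/-- the edges that are green at the end of the run -/
def Green (r : ℕ → Edge × Bool) : Set Edge := {e | ∃ n, r n = (e, true)}

/-- the edges that are white at the end of the run -/
def White (r : ℕ → Edge × Bool) : Set Edge := {e | ∀ n, (r n).1 ≠ e}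

/-- the graphs compatible with the run -/
def PInf (r : ℕ → Edge × Bool) : Set (SimpleGraph ℕ) :=
  {H | Green r ⊆ edges H ∧ edges H ⊆ Green r ∪ White r}

/-- Seeker wins the run in the game of the property `S` -/
def SeekerWins (S : Set (SimpleGraph ℕ)) (r : ℕ → Edge × Bool) : Prop :=
  (White r).Nonempty ∧ (PInf r ⊆ S ∨ PInf r ∩ S = ∅)

/-- Seeker has a winning strategy: a function from the positions to white edges -/
def SeekerHasWinningStrategy (S : Set (SimpleGraph ℕ)) : Prop :=
  ∃ σ : List (Edge × Bool) → Edge,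
    (∀ l : List (Edge × Bool), (l.map Prod.fst).Nodup → σ l ∉ l.map Prod.fst) ∧
    ∀ r : ℕ → Edge × Bool, Legal r → (∀ n, (r n).1 = σ (position r n)) → SeekerWins S r

/-- Hider has a winning strategy: a function giving a colour, from the position and the edge
chosen by Seeker -/
def HiderHasWinningStrategy (S : Set (SimpleGraph ℕ)) : Prop :=
  ∃ τ : List (Edge × Bool) → Edge → Bool,
    ∀ r : ℕ → Edge × Bool, Legal r → (∀ n, (r n).2 = τ (position r n) (r n).1) → ¬ SeekerWins S r

theorem edges_surj (X : Set Edge) : ∃ G : SimpleGraph ℕ, edges G = X := by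
  refine ⟨SimpleGraph.fromEdgeSet (Subtype.val '' X), ?_⟩
  ext e
  show e.1 ∈ (SimpleGraph.fromEdgeSet (Subtype.val '' X)).edgeSet ↔ _
  rw [SimpleGraph.edgeSet_fromEdgeSet]
  constructor
  · rintro ⟨⟨e', he', h⟩, _⟩
    rwa [← Subtype.ext h]
  · intro he
    exact ⟨⟨e, he, rfl⟩, e.2⟩

theorem mem_PInf {r : ℕ → Edge × Bool} (hr : Legal r) (G : SimpleGraph ℕ) :
    G ∈ PInf r ↔ Cs (Set.range r) (edges G) := by
  have hinj : ∀ m n, (r m).1 = (r n).1 → m = n := by
    intro m n h
    rcases Nat.lt_trichotomy m n with h1 | h1 | h1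
    · exact absurd h.symm (hr m n h1)
    · exact h1
    · exact absurd h (hr n m h1)
  constructor
  · rintro ⟨h1, h2⟩ e c ⟨n, hn⟩
    constructor
    · intro he
      rcases h2 he with ⟨m, hm⟩ | hw
      · have h3 : m = n := hinj m n (by rw [hm, hn])
        subst h3
        rw [hn] at hm
        exact (Prod.mk.inj hm).2
      · exact absurd (by rw [hn]) (hw n)
    · rintro rfl
      exact h1 ⟨n, hn⟩
  · intro h
    constructor
    · rintro e ⟨n, hn⟩
      exact (h e true ⟨n, hn⟩).mpr rfl
    · intro e he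
      by_cases hw : e ∈ White r
      · exact Or.inr hw
      · left
        have hw' : ¬ ∀ n, (r n).1 ≠ e := hw
        push Not at hw'
        obtain ⟨n, hn⟩ := hw'
        have h3 : r n = (e, (r n).2) := Prod.ext hn rfl
        have h4 := (h e _ ⟨n, h3⟩).mp he
        exact ⟨n, by rw [h3, h4]⟩

theorem wins_iff {r : ℕ → Edge × Bool} (hr : Legal r) (T : Set (Set Edge)) :
    SeekerWins {G | edges G ∈ T} r ↔ WinRun T r := by
  unfold SeekerWins WinRun
  have h1 : (White r).Nonempty ↔ ∃ e, ∀ n, (r n).1 ≠ e := Iff.rfl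
  have h2 : PInf r ⊆ {G | edges G ∈ T} ↔ ∀ G, Cs (Set.range r) G → G ∈ T := by
    constructor
    · intro h X hX
      obtain ⟨G, rfl⟩ := edges_surj X
      exact h ((mem_PInf hr G).mpr hX)
    · intro h G hG
      exact h _ ((mem_PInf hr G).mp hG)
  have h3 : PInf r ∩ {G | edges G ∈ T} = ∅ ↔ ∀ G, Cs (Set.range r) G → G ∉ T := by
    rw [Set.eq_empty_iff_forall_notMem]
    constructor
    · intro h X hX hT
      obtain ⟨G, rfl⟩ := edges_surj X
      exact h G ⟨(mem_PInf hr G).mpr hX, hT⟩
    · rintro h G ⟨hG, hT⟩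
      exact h _ ((mem_PInf hr G).mp hG) hT
  rw [h1, h2, h3]

theorem ad_edges (G : SimpleGraph ℕ) (u v : ℕ) : ad (edges G) u v ↔ G.Adj u v := by
  constructor
  · rintro ⟨_, h⟩
    exact h
  · intro h
    exact ⟨h.ne, h⟩

/-- There is a monotone isomorphism-invariant property of graphs on `ℕ` for which neither Seeker nor
Hider has a winning strategy. -/
theorem result : ∃ S : Set (SimpleGraph ℕ),
    (∀ G H : SimpleGraph ℕ, Nonempty (G ≃g H) → G ∈ S → H ∈ S) ∧
    (∀ G H : SimpleGraph ℕ, G ≤ H → G ∈ S → H ∈ S) ∧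
    ¬ SeekerHasWinningStrategy S ∧ ¬ HiderHasWinningStrategy S := by
  obtain ⟨I, hI1, hI2⟩ := Pool.Agent.Q215.Mo.exists_I
  refine ⟨{G | edges G ∈ Pool.Agent.Q215.Mo.SI I}, ?_, ?_, ?_, ?_⟩
  · rintro G H ⟨f⟩ hG
    refine Pool.Agent.Q215.Mo.SI_iso f.toEquiv ?_ hG
    intro u v
    rw [ad_edges, ad_edges]
    exact f.map_adj_iff
  · intro G H hGH hG
    refine Pool.Agent.Q215.Mo.SI_mono ?_ hG
    intro e he
    exact SimpleGraph.edgeSet_subset_edgeSet.mpr hGH he
  · rintro ⟨σ, hσ, hw⟩
    obtain ⟨ρ, hinj, hf, hn⟩ := hI1 σ (by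
      rintro l hl ⟨c, hc⟩
      exact hσ l hl (List.mem_map.mpr ⟨_, hc, rfl⟩))
    have hleg : Legal ρ := by
      intro m n hmn h
      have := hinj h
      omega
    exact hn ((wins_iff hleg _).mp (hw ρ hleg hf))
  · rintro ⟨τ, hw⟩
    obtain ⟨ρ, hρ, hn⟩ := hI2 τ
    have hleg : Legal ρ := by
      intro m n hmn h
      have := hρ.inj h
      omega
    exact hw ρ hleg hρ.fol ((wins_iff hleg _).mpr hn)

end Pool.Agent.Results.MP_3d6d95_lc.Undetermined
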